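import Mathlib

/-!
# MP_fd0bc0_an: the product of two Carleman operators need not be a Carleman operator

Negative answer to Q1 on every interval `(a, b)`, `-∞ ≤ a < b ≤ ∞`.  The operator `A` has rank one
(so it is bounded, everywhere defined and Hilbert-Schmidt) and `B` is a densely defined Carleman
operator on its maximal domain; `AB` has the dense domain `D(B)` and no Carleman kernel
represents it there.
-/

set_option autoImplicit false

open MeasureTheory Filter
open scoped ENNReal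

namespace Pool.Agent.Results.MP_fd0bc0_an.ProductsH14

/-- Lebesgue measure on the interval `(a, b)`; `a` and `b` may be infinite. -/
noncomputable def vol (a b : EReal) : Measure ℝ :=
  volume.restrict {x : ℝ | a < (x : EReal) ∧ (x : EReal) < b}

/-- The Hilbert space `L²(a, b)` of complex functions. -/
abbrev L2 (a b : EReal) : Type := Lp ℂ 2 (vol a b)

/-- `k` is a Carleman kernel on `(a, b) × (a, b)`: it is (Lebesgue) measurable and `k (x, ·)` lies in
`L²(a, b)` for almost every `x`. -/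
def IsCarlemanKernel (a b : EReal) (k : ℝ × ℝ → ℂ) : Prop :=
  AEStronglyMeasurable k ((vol a b).prod (vol a b)) ∧
    ∀ᵐ x ∂(vol a b), MemLp (fun y => k (x, y)) 2 (vol a b)

/-- The kernel `k` represents the operator `A` on the whole domain of `A`:
`(A f)(x) = ∫ k (x, y) f(y) dy` for almost every `x`, for all `f ∈ D(A)`. -/
def Represents {a b : EReal} (k : ℝ × ℝ → ℂ) (A : L2 a b →ₗ.[ℂ] L2 a b) : Prop :=
  ∀ f : A.domain, ∀ᵐ x ∂(vol a b),
    (A f : ℝ → ℂ) x = ∫ y, k (x, y) * ((f : L2 a b) : ℝ → ℂ) y ∂(vol a b)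

/-- `A` is a Carleman operator: some Carleman kernel represents it on its domain. -/
def IsCarleman {a b : EReal} (A : L2 a b →ₗ.[ℂ] L2 a b) : Prop :=
  ∃ k : ℝ × ℝ → ℂ, IsCarlemanKernel a b k ∧ Represents k A

/-- `B` is represented by a Carleman kernel `k` and has the largest possible domain: all `f` in
`L²(a, b)` for which `x ↦ ∫ k (x, y) f(y) dy` is in `L²(a, b)`. -/
def IsMaximalCarleman {a b : EReal} (B : L2 a b →ₗ.[ℂ] L2 a b) : Prop :=
  ∃ k : ℝ × ℝ → ℂ, IsCarlemanKernel a b k ∧ Represents k B ∧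
    ∀ f : L2 a b,
      f ∈ B.domain ↔ MemLp (fun x => ∫ y, k (x, y) * (f : ℝ → ℂ) y ∂(vol a b)) 2 (vol a b)

/-- The product `AB`: `D(AB) = {f ∈ D(B) : B f ∈ D(A)}` and `(AB) f = A (B f)`. -/
noncomputable def product {H : Type} [AddCommGroup H] [Module ℂ H] (A B : H →ₗ.[ℂ] H) :
    H →ₗ.[ℂ] H where
  domain :=
    { carrier := {f | ∃ h : f ∈ B.domain, B ⟨f, h⟩ ∈ A.domain}
      zero_mem' := ⟨B.domain.zero_mem, by
        have : B ⟨0, B.domain.zero_mem⟩ = 0 := B.map_zero
        rw [this]; exact A.domain.zero_mem⟩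
      add_mem' := by
        rintro f g ⟨hf, hf'⟩ ⟨hg, hg'⟩
        refine ⟨B.domain.add_mem hf hg, ?_⟩
        have : B ⟨f + g, B.domain.add_mem hf hg⟩ = B ⟨f, hf⟩ + B ⟨g, hg⟩ :=
          B.map_add ⟨f, hf⟩ ⟨g, hg⟩
        rw [this]; exact A.domain.add_mem hf' hg'
      smul_mem' := by
        rintro c f ⟨hf, hf'⟩
        refine ⟨B.domain.smul_mem c hf, ?_⟩
        have : B ⟨c • f, B.domain.smul_mem c hf⟩ = c • B ⟨f, hf⟩ := B.map_smul c ⟨f, hf⟩
        rw [this]; exact A.domain.smul_mem c hf' }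
  toFun :=
    { toFun := fun f => A ⟨B ⟨f, f.2.fst⟩, f.2.snd⟩
      map_add' := by
        rintro ⟨f, hf, hf'⟩ ⟨g, hg, hg'⟩
        rw [← A.map_add]
        congr 1
        exact Subtype.ext (B.map_add ⟨f, hf⟩ ⟨g, hg⟩)
      map_smul' := by
        rintro c ⟨f, hf, hf'⟩
        rw [RingHom.id_apply, ← A.map_smul]
        congr 1
        exact Subtype.ext (B.map_smul c ⟨f, hf⟩) }

theorem mem_product_domain {H : Type} [AddCommGroup H] [Module ℂ H] (A B : H →ₗ.[ℂ] H) (f : H) :
    f ∈ (product A B).domain ↔ ∃ h : f ∈ B.domain, B ⟨f, h⟩ ∈ A.domain := Iff.rfl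

theorem product_apply {H : Type} [AddCommGroup H] [Module ℂ H] (A B : H →ₗ.[ℂ] H) (f : H)
    (h : f ∈ B.domain) (h' : B ⟨f, h⟩ ∈ A.domain) :
    product A B ⟨f, h, h'⟩ = A ⟨B ⟨f, h⟩, h'⟩ := rfl


/-! ### The construction -/

section construction

variable {μ : Measure ℝ} {N : ℝ → ℕ}

/-- The pieces. -/
def S (N : ℝ → ℕ) (n : ℕ) : Set ℝ := N ⁻¹' {n}

/-- `m n` is the measure of the `n`-th piece. -/
noncomputable def m (μ : Measure ℝ) (N : ℝ → ℕ) (n : ℕ) : ℝ := (μ (S N n)).toReal

/-- The weights. -/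
noncomputable def w (μ : Measure ℝ) (N : ℝ → ℕ) (n : ℕ) : ℂ :=
  ((n / (m μ N n * Real.sqrt (m μ N n)) : ℝ) : ℂ)

/-- The kernel of `B`. -/
noncomputable def kB (μ : Measure ℝ) (N : ℝ → ℕ) (p : ℝ × ℝ) : ℂ :=
  (S N (N p.1)).indicator (fun _ => w μ N (N p.1)) p.2

/-- The kernel of `A`. -/
noncomputable def kA (N : ℝ → ℕ) (p : ℝ × ℝ) : ℂ := if N p.1 = 0 ∨ N p.2 = 0 then 0 else 1

/-- Hypotheses on the index function. -/
structure Good (μ : Measure ℝ) (N : ℝ → ℕ) : Prop where
  meas : Measurable N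
  pos : ∀ n, n ≠ 0 → 0 < μ (S N n)
  fin : μ {x | N x ≠ 0} < ⊤

theorem Good.measS (h : Good μ N) (n : ℕ) : MeasurableSet (S N n) :=
  h.meas (measurableSet_singleton n)

theorem Good.finS (h : Good μ N) {n : ℕ} (hn : n ≠ 0) : μ (S N n) < ⊤ := by
  refine lt_of_le_of_lt (measure_mono ?_) h.fin
  intro x hx
  have : N x = n := hx
  simp [this, hn]

theorem Good.m_pos (h : Good μ N) {n : ℕ} (hn : n ≠ 0) : 0 < m μ N n :=
  ENNReal.toReal_pos (h.pos n hn).ne' (h.finS hn).ne

theorem w_zero : w μ N 0 = 0 := by simp [w]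

theorem kB_meas (h : Good μ N) : Measurable (kB μ N) := by
  have h1 : kB μ N = fun p : ℝ × ℝ => if N p.2 = N p.1 then w μ N (N p.1) else 0 := by
    funext p
    by_cases hp : N p.2 = N p.1
    · simp [kB, S, hp]
    · simp [kB, S, hp]
  rw [h1]
  have hN1 : Measurable fun p : ℝ × ℝ => N p.1 := h.meas.comp measurable_fst
  have hN2 : Measurable fun p : ℝ × ℝ => N p.2 := h.meas.comp measurable_snd
  refine Measurable.ite (measurableSet_eq_fun hN2 hN1) ?_ measurable_const
  exact (measurable_from_nat (f := w μ N)).comp hN1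

theorem kA_meas (h : Good μ N) : Measurable (kA N) := by
  have hN1 : Measurable fun p : ℝ × ℝ => N p.1 := h.meas.comp measurable_fst
  have hN2 : Measurable fun p : ℝ × ℝ => N p.2 := h.meas.comp measurable_snd
  refine Measurable.ite ?_ measurable_const measurable_const
  exact (hN1 (measurableSet_singleton 0)).union (hN2 (measurableSet_singleton 0))

/-- A constant on a piece, the constant being zero on the zeroth piece. -/
theorem memLp_piece (h : Good μ N) (n : ℕ) (c : ℂ) (hc : n = 0 → c = 0) :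
    MemLp ((S N n).indicator fun _ => c) 2 μ := by
  rcases eq_or_ne n 0 with rfl | hn
  · rw [hc rfl]
    simp
  · exact memLp_indicator_const 2 (h.measS n) c (Or.inr (h.finS hn).ne)

theorem kB_memLp (h : Good μ N) (x : ℝ) : MemLp (fun y => kB μ N (x, y)) 2 μ := by
  have h1 : (fun y => kB μ N (x, y)) = (S N (N x)).indicator fun _ => w μ N (N x) := rfl
  rw [h1]
  exact memLp_piece h (N x) _ fun hx => by rw [hx]; exact w_zero

theorem measJ (h : Good μ N) : MeasurableSet {x | N x ≠ 0} :=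
  (h.meas (measurableSet_singleton 0)).compl

theorem kA_memLp (h : Good μ N) (x : ℝ) : MemLp (fun y => kA N (x, y)) 2 μ := by
  have h1 : (fun y => kA N (x, y)) =
      {y | N y ≠ 0}.indicator fun _ => if N x = 0 then (0 : ℂ) else 1 := by
    funext y
    by_cases hx : N x = 0 <;> by_cases hy : N y = 0 <;> simp [kA, hx, hy]
  rw [h1]
  exact memLp_indicator_const 2 (measJ h) _ (Or.inr h.fin.ne)

/-- The action of `B` on functions. -/
noncomputable def T (μ : Measure ℝ) (N : ℝ → ℕ) (f : ℝ → ℂ) (x : ℝ) : ℂ :=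
  ∫ y, kB μ N (x, y) * f y ∂μ

theorem integrable_kB (h : Good μ N) {f : ℝ → ℂ} (hf : MemLp f 2 μ) (x : ℝ) :
    Integrable (fun y => kB μ N (x, y) * f y) μ :=
  (kB_memLp h x).integrable_mul hf

theorem T_add (h : Good μ N) {f g : ℝ → ℂ} (hf : MemLp f 2 μ) (hg : MemLp g 2 μ) (x : ℝ) :
    T μ N (f + g) x = T μ N f x + T μ N g x := by
  simp only [T, Pi.add_apply, mul_add]
  exact integral_add (integrable_kB h hf x) (integrable_kB h hg x)

theorem T_smul (c : ℂ) (f : ℝ → ℂ) (x : ℝ) : T μ N (c • f) x = c * T μ N f x := by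
  simp only [T, Pi.smul_apply, smul_eq_mul]
  rw [← integral_const_mul]
  congr 1
  funext y
  ring

theorem T_congr {f g : ℝ → ℂ} (hfg : f =ᵐ[μ] g) : T μ N f = T μ N g := by
  funext x
  refine integral_congr_ae ?_
  filter_upwards [hfg] with y hy
  rw [hy]

theorem T_eq (h : Good μ N) (f : ℝ → ℂ) (x : ℝ) :
    T μ N f x = w μ N (N x) * ∫ y in S N (N x), f y ∂μ := by
  unfold T
  rw [← integral_const_mul, ← integral_indicator (h.measS _)]
  congr 1
  funext y
  by_cases hy : y ∈ S N (N x)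
  · simp [kB, hy]
  · simp [kB, hy]

/-- The domain of `B`. -/
noncomputable def domB (h : Good μ N) : Submodule ℂ (Lp ℂ 2 μ) where
  carrier := {f | MemLp (T μ N f) 2 μ}
  zero_mem' := by
    have : T μ N ((0 : Lp ℂ 2 μ) : ℝ → ℂ) = 0 := by
      rw [T_congr (Lp.coeFn_zero ℂ 2 μ)]
      funext x
      simp [T]
    show MemLp (T μ N ((0 : Lp ℂ 2 μ) : ℝ → ℂ)) 2 μ
    rw [this]
    exact MemLp.zero
  add_mem' := by
    intro f g hf hg
    have : T μ N ((f + g : Lp ℂ 2 μ) : ℝ → ℂ) = T μ N f + T μ N g := by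
      rw [T_congr (Lp.coeFn_add f g)]
      funext x
      exact T_add h (Lp.memLp f) (Lp.memLp g) x
    show MemLp (T μ N ((f + g : Lp ℂ 2 μ) : ℝ → ℂ)) 2 μ
    rw [this]
    exact MemLp.add hf hg
  smul_mem' := by
    intro c f hf
    have : T μ N ((c • f : Lp ℂ 2 μ) : ℝ → ℂ) = c • T μ N f := by
      rw [T_congr (Lp.coeFn_smul c f)]
      funext x
      exact T_smul c f x
    show MemLp (T μ N ((c • f : Lp ℂ 2 μ) : ℝ → ℂ)) 2 μ
    rw [this]
    exact MemLp.const_smul hf c

theorem mem_domB (h : Good μ N) (f : Lp ℂ 2 μ) : f ∈ domB h ↔ MemLp (T μ N f) 2 μ := Iff.rfl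

/-- The operator `B`. -/
noncomputable def opB (h : Good μ N) : Lp ℂ 2 μ →ₗ.[ℂ] Lp ℂ 2 μ where
  domain := domB h
  toFun :=
    { toFun := fun f => MemLp.toLp (T μ N (f : Lp ℂ 2 μ)) ((mem_domB h _).1 f.2)
      map_add' := by
        intro f g
        rw [← MemLp.toLp_add]
        congr 1
        rw [Submodule.coe_add, T_congr (Lp.coeFn_add (f : Lp ℂ 2 μ) (g : Lp ℂ 2 μ))]
        funext x
        exact T_add h (Lp.memLp _) (Lp.memLp _) x
      map_smul' := by
        intro c f
        rw [RingHom.id_apply, ← MemLp.toLp_const_smul]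
        congr 1
        rw [Submodule.coe_smul, T_congr (Lp.coeFn_smul c (f : Lp ℂ 2 μ))]
        funext x
        exact T_smul c _ x }

theorem opB_ae (h : Good μ N) (f : (opB h).domain) :
    (opB h f : ℝ → ℂ) =ᵐ[μ] T μ N (f : Lp ℂ 2 μ) :=
  MemLp.coeFn_toLp ((mem_domB h _).1 f.2)

/-- The indicator of the union of all pieces but the zeroth one. -/
noncomputable def oneJ (h : Good μ N) : Lp ℂ 2 μ :=
  indicatorConstLp 2 (measJ h) h.fin.ne (1 : ℂ)

theorem integrableJ (h : Good μ N) (f : Lp ℂ 2 μ) : IntegrableOn (f : ℝ → ℂ) {x | N x ≠ 0} μ := by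
  have : IsFiniteMeasure (μ.restrict {x | N x ≠ 0}) := ⟨by simpa using h.fin⟩
  exact ((Lp.memLp f).restrict _).integrable (by norm_num)

/-- The operator `A`, as a linear map. -/
noncomputable def linA (h : Good μ N) : Lp ℂ 2 μ →ₗ[ℂ] Lp ℂ 2 μ where
  toFun f := (∫ y in {x | N x ≠ 0}, (f : ℝ → ℂ) y ∂μ) • oneJ h
  map_add' f g := by
    rw [← add_smul]
    congr 1
    rw [← integral_add (integrableJ h f) (integrableJ h g)]
    exact integral_congr_ae (ae_restrict_of_ae (Lp.coeFn_add f g))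
  map_smul' c f := by
    rw [RingHom.id_apply, smul_smul]
    congr 1
    rw [← integral_const_mul]
    exact integral_congr_ae (ae_restrict_of_ae (Lp.coeFn_smul c f))

/-- The operator `A`. -/
noncomputable def opA (h : Good μ N) : Lp ℂ 2 μ →ₗ.[ℂ] Lp ℂ 2 μ := (linA h).toPMap ⊤

theorem opA_apply (h : Good μ N) (f : (opA h).domain) :
    opA h f = (∫ y in {x | N x ≠ 0}, ((f : Lp ℂ 2 μ) : ℝ → ℂ) y ∂μ) • oneJ h := rfl

/-! ### The pieces as elements of the domain of `B` -/

theorem T_restrict (h : Good μ N) (K : ℕ) {f : ℝ → ℂ} :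
    T μ N ({x | N x ≤ K}.indicator f) = {x | N x ≤ K}.indicator (T μ N f) := by
  funext x
  rw [T_eq h]
  by_cases hx : N x ≤ K
  · rw [Set.indicator_of_mem (by exact hx), T_eq h]
    congr 1
    refine setIntegral_congr_fun (h.measS _) ?_
    intro y hy
    have hy' : N y = N x := hy
    exact Set.indicator_of_mem (by simp only [Set.mem_ofPred_eq]; omega) _
  · rw [Set.indicator_of_notMem (by exact hx)]
    have : ∫ y in S N (N x), ({x | N x ≤ K}.indicator f) y ∂μ = ∫ y in S N (N x), (0 : ℂ) ∂μ := by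
      refine setIntegral_congr_fun (h.measS _) ?_
      intro y hy
      have hy' : N y = N x := hy
      exact Set.indicator_of_notMem (by simp only [Set.mem_ofPred_eq]; omega) _
    rw [this]
    simp

theorem measLe (h : Good μ N) (K : ℕ) : MeasurableSet {x | N x ≤ K} :=
  h.meas (measurableSet_Iic (a := K))

/-- `T f` is constant on each piece, so that its restriction to finitely many pieces is in `L²`. -/
theorem memLp_T_restrict (h : Good μ N) (K : ℕ) (f : ℝ → ℂ) :
    MemLp ({x | N x ≤ K}.indicator (T μ N f)) 2 μ := by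
  have h1 : {x | N x ≤ K}.indicator (T μ N f) =
      ∑ n ∈ Finset.range (K + 1), (S N n).indicator fun _ => w μ N n * ∫ y in S N n, f y ∂μ := by
    funext x
    rw [Finset.sum_apply]
    by_cases hx : N x ≤ K
    · rw [Set.indicator_of_mem (by exact hx), Finset.sum_eq_single (N x)]
      · rw [Set.indicator_of_mem (by exact rfl), T_eq h]
      · intro n _ hn
        refine Set.indicator_of_notMem ?_ _
        exact fun hx' => hn (Eq.symm hx')
      · intro hn
        exact absurd (Finset.mem_range.2 (by omega)) hn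
    · rw [Set.indicator_of_notMem (by exact hx)]
      symm
      refine Finset.sum_eq_zero ?_
      intro n hn
      refine Set.indicator_of_notMem (fun hx' => hx ?_) _
      have : N x = n := hx'
      have := Finset.mem_range.1 hn
      omega
  rw [h1]
  refine memLp_finsetSum' _ fun n _ => ?_
  refine memLp_piece h n _ fun hn => ?_
  rw [hn, w_zero, zero_mul]

/-- The restriction of `f` to finitely many pieces. -/
noncomputable def cut (h : Good μ N) (K : ℕ) (f : Lp ℂ 2 μ) : Lp ℂ 2 μ :=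
  MemLp.toLp _ ((Lp.memLp f).indicator (measLe h K))

theorem cut_ae (h : Good μ N) (K : ℕ) (f : Lp ℂ 2 μ) :
    (cut h K f : ℝ → ℂ) =ᵐ[μ] {x | N x ≤ K}.indicator f := MemLp.coeFn_toLp _

theorem cut_mem (h : Good μ N) (K : ℕ) (f : Lp ℂ 2 μ) : cut h K f ∈ domB h := by
  rw [mem_domB, T_congr (cut_ae h K f), T_restrict h]
  exact memLp_T_restrict h K _

theorem dense_domB (h : Good μ N) : Dense ((opB h).domain : Set (Lp ℂ 2 μ)) := by
  have h1 : (domB h).topologicalClosure = ⊤ := by
    rw [Submodule.topologicalClosure_eq_top_iff, Submodule.eq_bot_iff]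
    intro g hg
    rw [Submodule.mem_orthogonal] at hg
    have h2 : ∀ K : ℕ, ∀ᵐ x ∂μ, N x ≤ K → (g : ℝ → ℂ) x = 0 := by
      intro K
      have h3 := hg _ (cut_mem h K g)
      have h4 : inner ℂ (cut h K g) g = inner ℂ (cut h K g) (cut h K g) := by
        rw [L2.inner_def, L2.inner_def]
        refine integral_congr_ae ?_
        filter_upwards [cut_ae h K g] with x hx
        rw [hx]
        by_cases hxK : N x ≤ K
        · rw [Set.indicator_of_mem (by exact hxK)]
        · rw [Set.indicator_of_notMem (by exact hxK)]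
          simp
      rw [h4, inner_self_eq_zero] at h3
      have h5 := cut_ae h K g
      rw [h3] at h5
      filter_upwards [h5, Lp.coeFn_zero ℂ 2 μ] with x hx hx0 hxK
      rw [hx0, Set.indicator_of_mem (by exact hxK)] at hx
      exact hx.symm
    have h6 : ∀ᵐ x ∂μ, ∀ K : ℕ, N x ≤ K → (g : ℝ → ℂ) x = 0 := ae_all_iff.2 h2
    refine Lp.ext ?_
    filter_upwards [h6, Lp.coeFn_zero ℂ 2 μ] with x hx hx0
    rw [hx0]
    exact hx (N x) le_rfl
  have h2 : Dense ((domB h : Submodule ℂ (Lp ℂ 2 μ)) : Set (Lp ℂ 2 μ)) := by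
    rw [dense_iff_closure_eq, ← Submodule.topologicalClosure_coe, h1]
    rfl
  exact h2

/-- The indicator of a piece. -/
noncomputable def e (h : Good μ N) (n : ℕ) (hn : n ≠ 0) : Lp ℂ 2 μ :=
  indicatorConstLp 2 (h.measS n) (h.finS hn).ne (1 : ℂ)

theorem e_ae (h : Good μ N) {n : ℕ} (hn : n ≠ 0) :
    (e h n hn : ℝ → ℂ) =ᵐ[μ] (S N n).indicator fun _ => 1 := indicatorConstLp_coeFn

theorem T_e (h : Good μ N) {n : ℕ} (hn : n ≠ 0) :
    T μ N (e h n hn) = (S N n).indicator fun _ => w μ N n * (m μ N n : ℂ) := by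
  rw [T_congr (e_ae h hn)]
  funext x
  rw [T_eq h]
  by_cases hx : N x = n
  · rw [Set.indicator_of_mem (by exact hx), hx]
    congr 1
    rw [integral_indicator (h.measS n), Measure.restrict_restrict (h.measS n), Set.inter_self]
    simp [m, Measure.real]
  · rw [Set.indicator_of_notMem (by exact hx), integral_indicator (h.measS n),
      Measure.restrict_restrict (h.measS n)]
    have : S N n ∩ S N (N x) = ∅ := by
      ext y
      simp only [S, Set.mem_inter_iff, Set.mem_preimage, Set.mem_singleton_iff,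
        Set.mem_empty_iff_false, iff_false, not_and]
      intro hy hy'
      exact hx (hy'.symm.trans hy)
    rw [this]
    simp

theorem e_mem (h : Good μ N) {n : ℕ} (hn : n ≠ 0) : e h n hn ∈ domB h := by
  rw [mem_domB, T_e h hn]
  exact memLp_piece h n _ fun h0 => absurd h0 hn

theorem setInt_J (h : Good μ N) {n : ℕ} (hn : n ≠ 0) (c : ℂ) :
    ∫ y in {x | N x ≠ 0}, (S N n).indicator (fun _ => c) y ∂μ = m μ N n * c := by
  rw [integral_indicator (h.measS n), Measure.restrict_restrict (h.measS n)]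
  have : S N n ∩ {x | N x ≠ 0} = S N n := by
    refine Set.inter_eq_left.2 ?_
    intro x hx
    have hx' : N x = n := hx
    simp [hx', hn]
  rw [this]
  simp [m, Measure.real]

theorem w_mul (h : Good μ N) {n : ℕ} (hn : n ≠ 0) :
    (m μ N n : ℂ) * (w μ N n * (m μ N n : ℂ)) = ((n * Real.sqrt (m μ N n) : ℝ) : ℂ) := by
  have hm := h.m_pos hn
  rw [w, ← Complex.ofReal_mul, ← Complex.ofReal_mul]
  congr 1
  have h1 : Real.sqrt (m μ N n) ≠ 0 := (Real.sqrt_pos.2 hm).ne'
  have h2 : Real.sqrt (m μ N n) * Real.sqrt (m μ N n) = m μ N n := Real.mul_self_sqrt hm.le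
  field_simp
  nlinarith [h2]

/-- The value of the product on a piece. -/
theorem prod_e (h : Good μ N) {n : ℕ} (hn : n ≠ 0) (h' : opB h ⟨e h n hn, e_mem h hn⟩ ∈
      (opA h).domain) :
    opA h ⟨opB h ⟨e h n hn, e_mem h hn⟩, h'⟩ = ((n * Real.sqrt (m μ N n) : ℝ) : ℂ) • oneJ h := by
  rw [opA_apply]
  congr 1
  have h1 := opB_ae h ⟨e h n hn, e_mem h hn⟩
  have h2 : T μ N ((e h n hn : Lp ℂ 2 μ) : ℝ → ℂ) = _ := T_e h hn
  rw [← w_mul h hn, ← setInt_J h hn, ← h2]
  exact integral_congr_ae (ae_restrict_of_ae h1)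

theorem int_e (h : Good μ N) {n : ℕ} (hn : n ≠ 0) {k : ℝ → ℂ} (hk : MemLp k 2 μ) :
    ‖∫ y, k y * (e h n hn : ℝ → ℂ) y ∂μ‖ ≤ ‖MemLp.toLp k hk‖ * Real.sqrt (m μ N n) := by
  have h1 : ∫ y, k y * (e h n hn : ℝ → ℂ) y ∂μ = inner ℂ (e h n hn) (MemLp.toLp k hk) := by
    rw [L2.inner_def]
    refine integral_congr_ae ?_
    filter_upwards [e_ae h hn, MemLp.coeFn_toLp hk] with y hy hy'
    rw [hy, hy']
    by_cases hyS : y ∈ S N n
    · simp [Set.indicator_of_mem hyS]
    · simp [Set.indicator_of_notMem hyS]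
  rw [h1]
  refine (norm_inner_le_norm _ _).trans ?_
  rw [mul_comm]
  refine mul_le_mul_of_nonneg_left ?_ (norm_nonneg _)
  rw [e, norm_indicatorConstLp (by norm_num) (by norm_num), Real.sqrt_eq_rpow]
  simp [m, Measure.real]

end construction

/-- No function `k` of two variables, with `k (x, ·) ∈ L²` for almost all `x`, represents `AB`. -/
theorem not_rep {μ : Measure ℝ} {N : ℝ → ℕ} (h : Good μ N) (k : ℝ × ℝ → ℂ)
    (hk : ∀ᵐ x ∂μ, MemLp (fun y => k (x, y)) 2 μ)
    (hrep : ∀ f : (product (opA h) (opB h)).domain, ∀ᵐ x ∂μ,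
      (product (opA h) (opB h) f : ℝ → ℂ) x = ∫ y, k (x, y) * ((f : Lp ℂ 2 μ) : ℝ → ℂ) y ∂μ) :
    False := by
  have h1 : ∀ᵐ x ∂μ, ∀ n : ℕ, ((((n + 1 : ℕ) : ℝ) * Real.sqrt (m μ N (n + 1)) : ℝ) : ℂ) *
      (oneJ h : ℝ → ℂ) x = ∫ y, k (x, y) * (e h (n + 1) n.succ_ne_zero : ℝ → ℂ) y ∂μ := by
    rw [ae_all_iff]
    intro n
    have hm : opB h ⟨e h (n + 1) n.succ_ne_zero, e_mem h n.succ_ne_zero⟩ ∈ (opA h).domain :=
      Submodule.mem_top
    have h2 := hrep ⟨e h (n + 1) n.succ_ne_zero, e_mem h n.succ_ne_zero, hm⟩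
    rw [product_apply (opA h) (opB h) _ (e_mem h n.succ_ne_zero) hm,
      prod_e h n.succ_ne_zero hm] at h2
    filter_upwards [h2, Lp.coeFn_smul
      ((((n + 1 : ℕ) : ℝ) * Real.sqrt (m μ N (n + 1)) : ℝ) : ℂ) (oneJ h)] with x hx hx'
    rw [← hx, hx']
    rfl
  have h2 : ∀ᵐ x ∂μ, N x = 0 := by
    have h3 : (oneJ h : ℝ → ℂ) =ᵐ[μ] {x | N x ≠ 0}.indicator fun _ => 1 := indicatorConstLp_coeFn
    filter_upwards [h1, hk, h3] with x hx hkx hx3
    by_contra hNx
    rw [hx3, Set.indicator_of_mem (by exact hNx)] at hx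
    obtain ⟨n, hn⟩ := exists_nat_gt ‖MemLp.toLp _ hkx‖
    have h4 := int_e h n.succ_ne_zero hkx
    have h5 := hx n
    rw [← h5, mul_one, Complex.norm_real, Real.norm_of_nonneg (by positivity)] at h4
    have h6 : 0 < Real.sqrt (m μ N (n + 1)) := Real.sqrt_pos.2 (h.m_pos n.succ_ne_zero)
    have h7 := le_of_mul_le_mul_right h4 h6
    push_cast at h7
    linarith
  have h3 := h.pos 1 one_ne_zero
  have h4 : μ (S N 1) = 0 := by
    refine measure_mono_null ?_ (ae_iff.1 h2)
    intro x hx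
    have hx' : N x = 1 := hx
    simp [hx']
  exact h3.ne' h4

/-! ### The index function on an interval -/

/-- The index function. -/
noncomputable def idx (c d : ℝ) (x : ℝ) : ℕ := if x ∈ Set.Ioo c d then ⌊(d - c) / (x - c)⌋₊ else 0

theorem good_idx {a b : EReal} {c d : ℝ} (hac : a < c) (hcd : c < d) (hdb : (d : EReal) < b) :
    Good (vol a b) (idx c d) := by
  have hsub : Set.Ioo c d ⊆ {x : ℝ | a < (x : EReal) ∧ (x : EReal) < b} := by
    intro x hx
    exact ⟨hac.trans (EReal.coe_lt_coe_iff.2 hx.1), (EReal.coe_lt_coe_iff.2 hx.2).trans hdb⟩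
  refine ⟨?_, ?_, ?_⟩
  · refine Measurable.ite measurableSet_Ioo ?_ measurable_const
    exact Nat.measurable_floor.comp (measurable_const.div (measurable_id.sub measurable_const))
  · intro n hn
    have hn0 : (0 : ℝ) < n := by exact_mod_cast Nat.pos_of_ne_zero hn
    have hlt : c + (d - c) / (n + 1) < c + (d - c) / n := by
      have : (d - c) / (n + 1) < (d - c) / n :=
        div_lt_div_of_pos_left (sub_pos.2 hcd) hn0 (by linarith)
      linarith
    have hdn : (d - c) / n ≤ d - c := by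
      refine div_le_self (sub_pos.2 hcd).le ?_
      exact_mod_cast Nat.one_le_iff_ne_zero.2 hn
    have hpos1 : 0 < (d - c) / ((n : ℝ) + 1) := div_pos (sub_pos.2 hcd) (by linarith)
    have hsub2 : Set.Ioo (c + (d - c) / (n + 1)) (c + (d - c) / n) ⊆ S (idx c d) n := by
      intro x hx
      have hx1 : 0 < x - c := by linarith [hx.1]
      have hxI : x ∈ Set.Ioo c d := ⟨by linarith, by linarith [hx.2]⟩
      show idx c d x = n
      rw [idx, if_pos hxI, Nat.floor_eq_iff (div_pos (sub_pos.2 hcd) hx1).le]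
      constructor
      · rw [le_div_iff₀ hx1]
        have := hx.2
        have h3 : x - c < (d - c) / n := by linarith
        rw [lt_div_iff₀ hn0] at h3
        linarith
      · rw [div_lt_iff₀ hx1]
        have h3 : (d - c) / (n + 1) < x - c := by linarith [hx.1]
        rw [div_lt_iff₀ (by linarith)] at h3
        linarith
    refine lt_of_lt_of_le ?_ (measure_mono hsub2)
    have hsub3 : Set.Ioo (c + (d - c) / (n + 1)) (c + (d - c) / n) ⊆ Set.Ioo c d := by
      intro x hx
      exact ⟨by linarith [hx.1], by linarith [hx.2]⟩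
    rw [vol, Measure.restrict_apply measurableSet_Ioo,
      Set.inter_eq_left.2 (hsub3.trans hsub), Real.volume_Ioo]
    exact ENNReal.ofReal_pos.2 (by linarith)
  · have h1 : {x | idx c d x ≠ 0} ⊆ Set.Ioo c d := by
      intro x hx
      by_contra hx'
      exact hx (if_neg hx')
    refine lt_of_le_of_lt (measure_mono h1) ?_
    refine lt_of_le_of_lt (Measure.restrict_apply_le _ _) ?_
    rw [Real.volume_Ioo]
    exact ENNReal.ofReal_lt_top

/-- **The product of two Carleman operators need not be a Carleman operator.**  On every interval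
`(a, b)`, `-∞ ≤ a < b ≤ ∞`, there are Carleman operators `A` and `B` on `L²(a, b)` whose product
`AB` is not a Carleman operator.  Moreover `A` is everywhere defined, of the form
`A f = ⟨u, f⟩ v`, hence Hilbert-Schmidt, and `B` has the maximal domain for its kernel and is
densely defined; the domain of `AB` is the dense domain of `B`. -/
theorem result (a b : EReal) (hab : a < b) :
    ∃ A B : L2 a b →ₗ.[ℂ] L2 a b, IsCarleman A ∧ IsCarleman B ∧
      (A.domain = ⊤ ∧ ∃ u v : L2 a b, ∀ f : A.domain, A f = inner ℂ u (f : L2 a b) • v) ∧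
      (IsMaximalCarleman B ∧ Dense (B.domain : Set (L2 a b))) ∧
      (product A B).domain = B.domain ∧ ¬ IsCarleman (product A B) := by
  obtain ⟨c, hac, hcb⟩ := EReal.lt_iff_exists_real_btwn.1 hab
  obtain ⟨d, hcd, hdb⟩ := EReal.lt_iff_exists_real_btwn.1 hcb
  have h : Good (vol a b) (idx c d) := good_idx hac (EReal.coe_lt_coe_iff.1 hcd) hdb
  have hB : IsMaximalCarleman (opB h) := by
    refine ⟨kB (vol a b) (idx c d), ⟨(kB_meas h).aestronglyMeasurable,
      Eventually.of_forall fun x => kB_memLp h x⟩, fun f => opB_ae h f, fun f => Iff.rfl⟩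
  refine ⟨opA h, opB h, ?_, ?_, ⟨rfl, oneJ h, oneJ h, ?_⟩, ⟨hB, dense_domB h⟩, ?_, ?_⟩
  · refine ⟨kA (idx c d), ⟨(kA_meas h).aestronglyMeasurable,
      Eventually.of_forall fun x => kA_memLp h x⟩, ?_⟩
    intro f
    have h3 : (oneJ h : ℝ → ℂ) =ᵐ[vol a b] {x | idx c d x ≠ 0}.indicator fun _ => 1 :=
      indicatorConstLp_coeFn
    rw [opA_apply]
    filter_upwards [h3, Lp.coeFn_smul (∫ y in {x | idx c d x ≠ 0},
      ((f : Lp ℂ 2 (vol a b)) : ℝ → ℂ) y ∂(vol a b)) (oneJ h)] with x hx hx'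
    rw [hx', Pi.smul_apply, hx, smul_eq_mul]
    by_cases hx0 : idx c d x = 0
    · rw [Set.indicator_of_notMem (by simp [hx0])]
      simp [kA, hx0]
    · rw [Set.indicator_of_mem (by exact hx0), mul_one, ← integral_indicator (measJ h)]
      congr 1
      funext y
      by_cases hy : idx c d y = 0
      · rw [Set.indicator_of_notMem (by simp [hy])]
        simp [kA, hy]
      · rw [Set.indicator_of_mem (by exact hy)]
        simp [kA, hx0, hy]
  · obtain ⟨k, h1, h2, -⟩ := hB
    exact ⟨k, h1, h2⟩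
  · intro f
    rw [opA_apply]
    congr 1
    rw [oneJ, L2.inner_indicatorConstLp_one]
  · ext f
    rw [mem_product_domain]
    exact ⟨fun hf => hf.fst, fun hf => ⟨hf, Submodule.mem_top⟩⟩
  · rintro ⟨k, ⟨-, hk⟩, hrep⟩
    exact not_rep h k hk hrep

end Pool.Agent.Results.MP_fd0bc0_an.ProductsH14
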